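import Pool.Agent.helper32.QS.Spec

/-!
# Module qs:COI (MP_e82547_al): the sum of `Lef` over a coset of a normal `p'`-subgroup
-/

set_option autoImplicit false

namespace QS

open scoped BigOperators commutatorElement

theorem COI_inj {G : Type} [Group G] [Finite G] {p : ℕ} (hp : p.Prime) (V : Subgroup G) [V.Normal]
    (hV : ¬ p ∣ Nat.card V) (E : Subgroup G) (hE : EAb p E) (x y : G) (hx : x ∈ E) (hy : y ∈ E)
    (h : (x : G ⧸ V) = (y : G ⧸ V)) : x = y := by
  have h1 : x⁻¹ * y ∈ V := QuotientGroup.eq.1 h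
  have h2 : x⁻¹ * y ∈ E := E.mul_mem (E.inv_mem hx) hy
  have h3 : (x⁻¹ * y) ^ p = 1 := hE.2 _ h2
  have h4 : orderOf (x⁻¹ * y) ∣ p := orderOf_dvd_of_pow_eq_one h3
  have h5 : orderOf (x⁻¹ * y) ∣ Nat.card V := by
    have := orderOf_dvd_natCard (⟨x⁻¹ * y, h1⟩ : V)
    rwa [Subgroup.orderOf_mk] at this
  have h6 : orderOf (x⁻¹ * y) = 1 := by
    rcases (Nat.dvd_prime hp).1 h4 with h | h
    · exact h
    · exact absurd (h ▸ h5) hV
  have h7 : x⁻¹ * y = 1 := orderOf_eq_one_iff.1 h6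
  exact inv_mul_eq_one.1 h7

theorem COI_back {G : Type} [Group G] [Finite G] {p : ℕ} (hp : p.Prime) (V : Subgroup G) [V.Normal]
    (hV : ¬ p ∣ Nat.card V) (E F : Subgroup G) (hF : EAb p F) (hEF : E ≤ F) (x : G) (hx : x ∈ F)
    (h : (x : G ⧸ V) ∈ E.map (QuotientGroup.mk' V)) : x ∈ E := by
  obtain ⟨e, he, hex⟩ := Subgroup.mem_map.1 h
  have := COI_inj hp V hV F hF x e hx (hEF he) hex.symm
  rw [this]; exact he

/-- chain of nontrivial elementary abelian subgroups -/
def COI_Ch {G : Type} [Group G] (p : ℕ) (s : Finset (Subgroup G)) : Prop :=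
  IsChain (· ≤ ·) (s : Set (Subgroup G)) ∧ ∀ E ∈ s, E ≠ ⊥ ∧ EAb p E

/-- `g` stabilises `E` -/
def COI_St {G : Type} [Group G] (g : G) (E : Subgroup G) : Prop := ∀ x : G, x ∈ E ↔ g * x * g⁻¹ ∈ E

open Classical in
theorem COI_lef {G : Type} [Group G] [Fintype (Subgroup G)] (p : ℕ) (g : G) :
    Lef G p g = ∑ s : Finset (Subgroup G),
      if COI_Ch p s ∧ ∀ E ∈ s, COI_St g E then (-1 : ℤ) ^ (s.card + 1) else 0 := by
  unfold Lef
  rw [finsum_eq_sum_of_fintype]
  apply Finset.sum_congr rfl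
  intro s _
  rw [finsum_eq_if]
  apply if_congr _ rfl rfl
  constructor
  · rintro ⟨h1, h2⟩
    exact ⟨⟨h1, fun E hE => ⟨(h2 E hE).1, (h2 E hE).2.1, (h2 E hE).2.2.1⟩⟩, fun E hE => (h2 E hE).2.2.2⟩
  · rintro ⟨⟨h1, h2⟩, h3⟩
    exact ⟨h1, fun E hE => ⟨(h2 E hE).1, (h2 E hE).2.1, (h2 E hE).2.2, h3 E hE⟩⟩

theorem COI_map_EAb {G : Type} [Group G] {p : ℕ} (V : Subgroup G) [V.Normal] (E : Subgroup G) (hE : EAb p E) :
    EAb p (E.map (QuotientGroup.mk' V)) := by
  constructor
  · intro x hx y hy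
    obtain ⟨a, ha, rfl⟩ := Subgroup.mem_map.1 hx
    obtain ⟨b, hb, rfl⟩ := Subgroup.mem_map.1 hy
    rw [← map_mul, ← map_mul, hE.1 a ha b hb]
  · intro x hx
    obtain ⟨a, ha, rfl⟩ := Subgroup.mem_map.1 hx
    rw [← map_pow, hE.2 a ha, map_one]

theorem COI_map_ne {G : Type} [Group G] [Finite G] {p : ℕ} (hp : p.Prime) (V : Subgroup G) [V.Normal]
    (hV : ¬ p ∣ Nat.card V) (E : Subgroup G) (hE : EAb p E) (hne : E ≠ ⊥) :
    E.map (QuotientGroup.mk' V) ≠ ⊥ := by
  intro h
  apply hne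
  rw [eq_bot_iff]
  intro x hx
  have h1 : (x : G ⧸ V) ∈ E.map (QuotientGroup.mk' V) := Subgroup.mem_map.2 ⟨x, hx, rfl⟩
  rw [h, Subgroup.mem_bot] at h1
  have h2 : x = 1 := COI_inj hp V hV E hE x 1 hx E.one_mem (by rw [h1]; rfl)
  exact Subgroup.mem_bot.2 h2

theorem COI_map_St {G : Type} [Group G] (V : Subgroup G) [V.Normal] (g : G) (E : Subgroup G)
    (h : COI_St g E) : COI_St (g : G ⧸ V) (E.map (QuotientGroup.mk' V)) := by
  intro y
  constructor
  · intro hy
    obtain ⟨a, ha, rfl⟩ := Subgroup.mem_map.1 hy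
    exact Subgroup.mem_map.2 ⟨g * a * g⁻¹, (h a).1 ha, rfl⟩
  · intro hy
    obtain ⟨a, ha, hay⟩ := Subgroup.mem_map.1 hy
    refine Subgroup.mem_map.2 ⟨g⁻¹ * a * g, ?_, ?_⟩
    · rw [h, show g * (g⁻¹ * a * g) * g⁻¹ = a by group]
      exact ha
    · have h1 : (QuotientGroup.mk' V) (g⁻¹ * a * g) = (g : G ⧸ V)⁻¹ * (QuotientGroup.mk' V a) * (g : G ⧸ V) := rfl
      rw [h1, hay]
      group

theorem COI_injOn {G : Type} [Group G] [Finite G] {p : ℕ} (hp : p.Prime) (V : Subgroup G) [V.Normal]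
    (hV : ¬ p ∣ Nat.card V) (s : Finset (Subgroup G)) (hs : COI_Ch p s) :
    Set.InjOn (Subgroup.map (QuotientGroup.mk' V)) (s : Set (Subgroup G)) := by
  have key : ∀ E ∈ s, ∀ F ∈ s, E ≤ F → E.map (QuotientGroup.mk' V) = F.map (QuotientGroup.mk' V) → E = F := by
    intro E hE F hF hle h
    apply le_antisymm hle
    intro x hx
    apply COI_back hp V hV E F (hs.2 F hF).2 hle x hx
    rw [h]
    exact Subgroup.mem_map.2 ⟨x, hx, rfl⟩
  intro E hE F hF h
  rcases hs.1.total hE hF with h1 | h1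
  · exact key E hE F hF h1 h
  · exact (key F hF E hE h1 h.symm).symm

open Classical in
theorem COI_image_Ch {G : Type} [Group G] [Finite G] {p : ℕ} (hp : p.Prime) (V : Subgroup G) [V.Normal]
    (hV : ¬ p ∣ Nat.card V) (s : Finset (Subgroup G)) (hs : COI_Ch p s) :
    COI_Ch p (s.image (Subgroup.map (QuotientGroup.mk' V))) := by
  constructor
  · intro A hA B hB hne
    rw [Finset.mem_coe, Finset.mem_image] at hA hB
    obtain ⟨E, hE, rfl⟩ := hA
    obtain ⟨F, hF, rfl⟩ := hB
    rcases hs.1.total hE hF with h1 | h1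
    · exact Or.inl (Subgroup.map_mono h1)
    · exact Or.inr (Subgroup.map_mono h1)
  · intro A hA
    rw [Finset.mem_image] at hA
    obtain ⟨E, hE, rfl⟩ := hA
    exact ⟨COI_map_ne hp V hV E (hs.2 E hE).2 (hs.2 E hE).1, COI_map_EAb V E (hs.2 E hE).2⟩

/-- the lift of a subgroup of `G / V` to `E` -/
def COI_L {G : Type} [Group G] (V : Subgroup G) [V.Normal] (E : Subgroup G) (F' : Subgroup (G ⧸ V)) : Subgroup G :=
  E ⊓ F'.comap (QuotientGroup.mk' V)

theorem COI_mem_L {G : Type} [Group G] (V : Subgroup G) [V.Normal] (E : Subgroup G) (F' : Subgroup (G ⧸ V)) (x : G) :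
    x ∈ COI_L V E F' ↔ x ∈ E ∧ (x : G ⧸ V) ∈ F' := Iff.rfl

theorem COI_map_L {G : Type} [Group G] (V : Subgroup G) [V.Normal] (E : Subgroup G) (F' : Subgroup (G ⧸ V))
    (h : F' ≤ E.map (QuotientGroup.mk' V)) : (COI_L V E F').map (QuotientGroup.mk' V) = F' := by
  apply le_antisymm
  · intro y hy
    obtain ⟨a, ha, rfl⟩ := Subgroup.mem_map.1 hy
    exact ((COI_mem_L V E F' a).1 ha).2
  · intro y hy
    obtain ⟨a, ha, rfl⟩ := Subgroup.mem_map.1 (h hy)
    exact Subgroup.mem_map.2 ⟨a, (COI_mem_L V E F' a).2 ⟨ha, hy⟩, rfl⟩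

open Classical in
/-- the fibre over a nonempty chain -/
theorem COI_fibre {G : Type} [Group G] [Finite G] {p : ℕ} (hp : p.Prime) (V : Subgroup G) [V.Normal]
    (hV : ¬ p ∣ Nat.card V) (s' : Finset (Subgroup (G ⧸ V))) (hs' : COI_Ch p s') (T' : Subgroup (G ⧸ V))
    (hT : T' ∈ s') (hmax : ∀ F' ∈ s', F' ≤ T') :
    (∀ E : Subgroup G, EAb p E → E.map (QuotientGroup.mk' V) = T' →
      COI_Ch p (s'.image (COI_L V E)) ∧
        (s'.image (COI_L V E)).image (Subgroup.map (QuotientGroup.mk' V)) = s' ∧ E ∈ s'.image (COI_L V E)) ∧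
    (∀ s : Finset (Subgroup G), COI_Ch p s → s.image (Subgroup.map (QuotientGroup.mk' V)) = s' →
      ∀ E ∈ s, E.map (QuotientGroup.mk' V) = T' → s = s'.image (COI_L V E)) := by
  constructor
  · intro E hE hET
    have hle : ∀ F' ∈ s', F' ≤ E.map (QuotientGroup.mk' V) := fun F' hF' => hET ▸ hmax F' hF'
    refine ⟨⟨?_, ?_⟩, ?_, ?_⟩
    · intro A hA B hB hne
      rw [Finset.mem_coe, Finset.mem_image] at hA hB
      obtain ⟨A', hA', rfl⟩ := hA
      obtain ⟨B', hB', rfl⟩ := hB
      rcases hs'.1.total hA' hB' with h1 | h1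
      · left
        intro x hx
        exact ⟨hx.1, h1 hx.2⟩
      · right
        intro x hx
        exact ⟨hx.1, h1 hx.2⟩
    · intro A hA
      rw [Finset.mem_image] at hA
      obtain ⟨A', hA', rfl⟩ := hA
      refine ⟨?_, ?_, ?_⟩
      · intro h
        apply (hs'.2 A' hA').1
        rw [← COI_map_L V E A' (hle A' hA'), h, Subgroup.map_bot]
      · intro x hx y hy
        exact hE.1 x hx.1 y hy.1
      · intro x hx
        exact hE.2 x hx.1
    · ext A'
      rw [Finset.image_image, Finset.mem_image]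
      constructor
      · rintro ⟨F', hF', rfl⟩
        rw [Function.comp_apply, COI_map_L V E F' (hle F' hF')]
        exact hF'
      · intro hA'
        exact ⟨A', hA', COI_map_L V E A' (hle A' hA')⟩
    · rw [Finset.mem_image]
      refine ⟨T', hT, ?_⟩
      apply le_antisymm
      · intro x hx
        exact hx.1
      · intro x hx
        refine ⟨hx, ?_⟩
        show (x : G ⧸ V) ∈ T'
        rw [← hET]
        exact Subgroup.mem_map.2 ⟨x, hx, rfl⟩
  · intro s hs hss E hE hET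
    have hsub : ∀ F ∈ s, F ≤ E := by
      intro F hF
      rcases hs.1.total hF hE with h1 | h1
      · exact h1
      · intro x hx
        apply COI_back hp V hV E F (hs.2 F hF).2 h1 x hx
        rw [hET]
        apply hmax (F.map (QuotientGroup.mk' V))
        · rw [← hss, Finset.mem_image]
          exact ⟨F, hF, rfl⟩
        · exact Subgroup.mem_map.2 ⟨x, hx, rfl⟩
    have hF : ∀ F ∈ s, COI_L V E (F.map (QuotientGroup.mk' V)) = F := by
      intro F hF
      apply le_antisymm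
      · intro x hx
        exact COI_back hp V hV F E (hs.2 E hE).2 (hsub F hF) x hx.1 hx.2
      · intro x hx
        exact ⟨hsub F hF hx, Subgroup.mem_map.2 ⟨x, hx, rfl⟩⟩
    ext F
    rw [Finset.mem_image]
    constructor
    · intro hFs
      refine ⟨F.map (QuotientGroup.mk' V), ?_, hF F hFs⟩
      rw [← hss, Finset.mem_image]
      exact ⟨F, hFs, rfl⟩
    · rintro ⟨F', hF', rfl⟩
      rw [← hss, Finset.mem_image] at hF'
      obtain ⟨A, hA, rfl⟩ := hF'
      rw [hF A hA]
      exact hA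

theorem COI_stab {G : Type} [Group G] (V : Subgroup G) [V.Normal] (g : G) (v : V) (E : Subgroup G)
    (s' : Finset (Subgroup (G ⧸ V))) (hst : ∀ F' ∈ s', COI_St (g : G ⧸ V) F')
    (hE : COI_St (g * (v : G)) E) (F' : Subgroup (G ⧸ V)) (hF' : F' ∈ s') :
    COI_St (g * (v : G)) (COI_L V E F') := by
  intro x
  rw [COI_mem_L, COI_mem_L, ← hE x]
  have h1 : ((g * (v : G) * x * (g * (v : G))⁻¹ : G) : G ⧸ V) = (g : G ⧸ V) * (x : G ⧸ V) * (g : G ⧸ V)⁻¹ := by
    have h2 : ((g * (v : G) : G) : G ⧸ V) = (g : G ⧸ V) := QuotientGroup.mk_mul_of_mem g v.2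
    rw [QuotientGroup.mk_mul, QuotientGroup.mk_mul, QuotientGroup.mk_inv, h2]
  rw [h1, ← hst F' hF' (x : G ⧸ V)]

open Classical in
/-- the number of pairs over `s'` -/
theorem COI_count (hLF1 : LF1_stmt) {G : Type} [Group G] [Finite G] [Fintype G] [Fintype (Subgroup G)]
    {p : ℕ} (hp : p.Prime) (V : Subgroup G) [V.Normal] (hV : ¬ p ∣ Nat.card V) (g : G)
    (s' : Finset (Subgroup (G ⧸ V))) (hs' : COI_Ch p s') (hst : ∀ F' ∈ s', COI_St (g : G ⧸ V) F') :
    ∑ s : Finset (Subgroup G) with s.image (Subgroup.map (QuotientGroup.mk' V)) = s' ∧ COI_Ch p s,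
      (Finset.univ.filter (fun v : V => ∀ E ∈ s, COI_St (g * (v : G)) E)).card = Nat.card V := by
  rcases s'.eq_empty_or_nonempty with rfl | hne
  · have h1 : (Finset.univ.filter (fun s : Finset (Subgroup G) =>
        s.image (Subgroup.map (QuotientGroup.mk' V)) = ∅ ∧ COI_Ch p s)) = {∅} := by
      ext s
      rw [Finset.mem_filter, Finset.mem_singleton, Finset.image_eq_empty]
      constructor
      · rintro ⟨-, h, -⟩
        exact h
      · rintro rfl
        refine ⟨Finset.mem_univ _, rfl, ?_, ?_⟩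
        · intro a ha
          simp at ha
        · intro a ha
          simp at ha
    rw [h1, Finset.sum_singleton]
    have h2 : (Finset.univ.filter (fun v : V => ∀ E ∈ (∅ : Finset (Subgroup G)), COI_St (g * (v : G)) E)) = Finset.univ := by
      ext v
      simp
    rw [h2, Finset.card_univ, Nat.card_eq_fintype_card]
  · obtain ⟨T', hT, hmax⟩ : ∃ T' ∈ s', ∀ F' ∈ s', F' ≤ T' := by
      obtain ⟨T', hT, hm⟩ := s'.exists_maximal hne
      refine ⟨T', hT, fun F' hF' => ?_⟩
      rcases hs'.1.total hF' hT with h1 | h1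
      · exact h1
      · exact hm hF' h1
    obtain ⟨hf1, hf2⟩ := COI_fibre hp V hV s' hs' T' hT hmax
    have hL := hLF1 G p hp V hV T' (hs'.2 T' hT).2 g (hst T' hT)
    rw [← hL]
    have h3 : ∑ s : Finset (Subgroup G) with s.image (Subgroup.map (QuotientGroup.mk' V)) = s' ∧ COI_Ch p s,
        (Finset.univ.filter (fun v : V => ∀ E ∈ s, COI_St (g * (v : G)) E)).card
        = ∑ E : Subgroup G with EAb p E ∧ E.map (QuotientGroup.mk' V) = T',
          (Finset.univ.filter (fun v : V => COI_St (g * (v : G)) E)).card := by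
      symm
      apply Finset.sum_bij (fun E _ => s'.image (COI_L V E))
      · intro E hE
        rw [Finset.mem_filter] at hE ⊢
        obtain ⟨a1, a2, a3⟩ := hf1 E hE.2.1 hE.2.2
        exact ⟨Finset.mem_univ _, a2, a1⟩
      · intro E hE F hF h
        rw [Finset.mem_filter] at hE hF
        obtain ⟨a1, a2, a3⟩ := hf1 E hE.2.1 hE.2.2
        obtain ⟨b1, b2, b3⟩ := hf1 F hF.2.1 hF.2.2
        have h4 : E ∈ s'.image (COI_L V F) := h ▸ a3
        exact COI_injOn hp V hV _ b1 h4 b3 (by rw [hE.2.2, hF.2.2])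
      · intro s hs
        rw [Finset.mem_filter] at hs
        have h5 : T' ∈ s.image (Subgroup.map (QuotientGroup.mk' V)) := by rw [hs.2.1]; exact hT
        rw [Finset.mem_image] at h5
        obtain ⟨E, hE, hET⟩ := h5
        refine ⟨E, ?_, (hf2 s hs.2.2 hs.2.1 E hE hET).symm⟩
        rw [Finset.mem_filter]
        exact ⟨Finset.mem_univ _, (hs.2.2.2 E hE).2, hET⟩
      · intro E hE
        rw [Finset.mem_filter] at hE
        obtain ⟨a1, a2, a3⟩ := hf1 E hE.2.1 hE.2.2
        congr 1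
        ext v
        rw [Finset.mem_filter, Finset.mem_filter]
        constructor
        · rintro ⟨-, h6⟩
          refine ⟨Finset.mem_univ _, ?_⟩
          intro F hF
          rw [Finset.mem_image] at hF
          obtain ⟨F', hF', rfl⟩ := hF
          exact COI_stab V g v E s' hst h6 F' hF'
        · rintro ⟨-, h6⟩
          exact ⟨Finset.mem_univ _, h6 E a3⟩
    rw [h3]
    rw [Nat.card_eq_fintype_card, Fintype.card_subtype]
    rw [Finset.card_eq_sum_card_fiberwise (f := fun c : Subgroup G × V => c.1)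
      (t := Finset.univ.filter (fun E : Subgroup G => EAb p E ∧ E.map (QuotientGroup.mk' V) = T'))]
    · apply Finset.sum_congr rfl
      intro E hE
      rw [Finset.mem_filter] at hE
      apply Finset.card_bij (fun (v : V) _ => ((E, v) : Subgroup G × V))
      · intro v hv
        rw [Finset.mem_filter] at hv
        rw [Finset.mem_filter, Finset.mem_filter]
        exact ⟨⟨Finset.mem_univ _, hE.2.1, hE.2.2, hv.2⟩, rfl⟩
      · intro v _ w _ h
        exact (Prod.ext_iff.1 h).2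
      · rintro ⟨F, v⟩ hc
        rw [Finset.mem_filter, Finset.mem_filter] at hc
        obtain ⟨⟨-, c1, c2, c3⟩, c4⟩ := hc
        simp only at c4
        subst c4
        refine ⟨v, ?_, rfl⟩
        rw [Finset.mem_filter]
        exact ⟨Finset.mem_univ _, c3⟩
    · rintro ⟨F, v⟩ hc
      rw [Finset.mem_coe, Finset.mem_filter] at hc
      rw [Finset.mem_coe, Finset.mem_filter]
      exact ⟨Finset.mem_univ _, hc.2.1, hc.2.2.1⟩

theorem COI (hLF1 : LF1_stmt) : COI_stmt := by
  classical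
  intro G _ _ p hp V _ hV g
  haveI : Fintype G := Fintype.ofFinite G
  haveI : Fintype (Subgroup G) := Fintype.ofFinite _
  haveI : Fintype (Subgroup (G ⧸ V)) := Fintype.ofFinite _
  rw [finsum_eq_sum_of_fintype]
  have e1 : ∀ v : V, Lef G p (g * (v : G)) = ∑ s : Finset (Subgroup G),
      if COI_Ch p s ∧ ∀ E ∈ s, COI_St (g * (v : G)) E then (-1 : ℤ) ^ (s.card + 1) else 0 :=
    fun v => COI_lef p (g * (v : G))
  rw [Finset.sum_congr rfl (fun v _ => e1 v), Finset.sum_comm]
  have e2 : ∀ s : Finset (Subgroup G), ∑ v : V,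
      (if COI_Ch p s ∧ ∀ E ∈ s, COI_St (g * (v : G)) E then (-1 : ℤ) ^ (s.card + 1) else 0)
      = if COI_Ch p s then (-1 : ℤ) ^ (s.card + 1) *
        ((Finset.univ.filter (fun v : V => ∀ E ∈ s, COI_St (g * (v : G)) E)).card : ℤ) else 0 := by
    intro s
    by_cases h : COI_Ch p s
    · rw [if_pos h]
      have e3 : ∀ v : V, (if COI_Ch p s ∧ ∀ E ∈ s, COI_St (g * (v : G)) E then (-1 : ℤ) ^ (s.card + 1) else 0)
          = if ∀ E ∈ s, COI_St (g * (v : G)) E then (-1 : ℤ) ^ (s.card + 1) else 0 := by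
        intro v
        apply if_congr _ rfl rfl
        exact ⟨fun h2 => h2.2, fun h2 => ⟨h, h2⟩⟩
      rw [Finset.sum_congr rfl (fun v _ => e3 v), ← Finset.sum_filter, Finset.sum_const, nsmul_eq_mul, mul_comm]
    · rw [if_neg h]
      apply Finset.sum_eq_zero
      intro v _
      rw [if_neg]
      exact fun h2 => h h2.1
  rw [Finset.sum_congr rfl (fun s _ => e2 s)]
  rw [← Finset.sum_fiberwise Finset.univ (fun s : Finset (Subgroup G) => s.image (Subgroup.map (QuotientGroup.mk' V)))]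
  rw [COI_lef p (g : G ⧸ V), Finset.mul_sum]
  apply Finset.sum_congr rfl
  intro s' _
  rw [← Finset.sum_filter, Finset.filter_filter]
  have e4 : ∀ s ∈ Finset.univ.filter (fun s : Finset (Subgroup G) =>
      s.image (Subgroup.map (QuotientGroup.mk' V)) = s' ∧ COI_Ch p s),
      (-1 : ℤ) ^ (s.card + 1) * ((Finset.univ.filter (fun v : V => ∀ E ∈ s, COI_St (g * (v : G)) E)).card : ℤ)
      = (-1 : ℤ) ^ (s'.card + 1) *
        ((Finset.univ.filter (fun v : V => ∀ E ∈ s, COI_St (g * (v : G)) E)).card : ℤ) := by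
    intro s hs
    rw [Finset.mem_filter] at hs
    have h5 : s'.card = s.card := by
      rw [← hs.2.1]
      exact Finset.card_image_of_injOn (COI_injOn hp V hV s hs.2.2)
    rw [h5]
  rw [Finset.sum_congr rfl e4, ← Finset.mul_sum]
  by_cases h1 : COI_Ch p s'
  · by_cases h2 : ∀ F' ∈ s', COI_St (g : G ⧸ V) F'
    · rw [if_pos ⟨h1, h2⟩]
      have h3 := COI_count hLF1 hp V hV g s' h1 h2
      rw [← Nat.cast_sum, h3, mul_comm]
    · rw [if_neg (fun h => h2 h.2), mul_zero]
      have h3 : ∑ s ∈ Finset.univ.filter (fun s : Finset (Subgroup G) =>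
          s.image (Subgroup.map (QuotientGroup.mk' V)) = s' ∧ COI_Ch p s),
          ((Finset.univ.filter (fun v : V => ∀ E ∈ s, COI_St (g * (v : G)) E)).card : ℤ) = 0 := by
        apply Finset.sum_eq_zero
        intro s hs
        rw [Finset.mem_filter] at hs
        rw [Nat.cast_eq_zero, Finset.card_eq_zero, Finset.filter_eq_empty_iff]
        intro v _ h4
        apply h2
        intro F' hF'
        rw [← hs.2.1, Finset.mem_image] at hF'
        obtain ⟨F, hF, rfl⟩ := hF'
        have h5 := COI_map_St V (g * (v : G)) F (h4 F hF)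
        have h6 : ((g * (v : G) : G) : G ⧸ V) = (g : G ⧸ V) := QuotientGroup.mk_mul_of_mem g v.2
        rwa [h6] at h5
      rw [h3, mul_zero]
  · rw [if_neg (fun h => h1 h.1), mul_zero]
    have h3 : Finset.univ.filter (fun s : Finset (Subgroup G) =>
        s.image (Subgroup.map (QuotientGroup.mk' V)) = s' ∧ COI_Ch p s) = ∅ := by
      rw [Finset.filter_eq_empty_iff]
      rintro s - ⟨h4, h5⟩
      exact h1 (h4 ▸ COI_image_Ch hp V hV s h5)
    rw [h3, Finset.sum_empty, mul_zero]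

end QS
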